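import Pool.Agent.Lib_helper71.Db.Maj

/-!
G6: the local estimates at critical pairs give the global estimate by compactness.
-/

set_option autoImplicit false

open MeasureTheory Set Metric Filter Topology
open scoped ENNReal NNReal

namespace Db

variable {g : V → ℝ}

lemma IsGauge.cont (hg : IsGauge g) : Continuous g := by
  rw [← continuousOn_univ]
  exact hg.convexOn.continuousOn isOpen_univ

lemma IsGauge.compact_le_one (hg : IsGauge g) : IsCompact {x | g x ≤ 1} := by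
  have hcl : IsClosed {x | g x ≤ 1} := isClosed_le hg.cont continuous_const
  have hne : (sphere (0 : V) 1).Nonempty := NormedSpace.sphere_nonempty.2 zero_le_one
  obtain ⟨x₀, hx₀, hmin⟩ := (isCompact_sphere (0 : V) 1).exists_isMinOn hne hg.cont.continuousOn
  have hx₀' : x₀ ≠ 0 := by
    rintro rfl
    simp at hx₀
  have hm := hg.pos x₀ hx₀'
  refine (isCompact_closedBall (0 : V) (1 / g x₀)).of_isClosed_subset hcl ?_
  intro x hx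
  have hx1 : g x ≤ 1 := hx
  rw [mem_closedBall, dist_zero_right, le_div_iff₀ hm]
  by_cases h0 : x = 0
  · subst h0; simp
  have hn : 0 < ‖x‖ := norm_pos_iff.2 h0
  have h1 : ‖x‖⁻¹ • x ∈ sphere (0 : V) 1 := by
    rw [mem_sphere, dist_zero_right, norm_smul, norm_inv, norm_norm, inv_mul_cancel₀ hn.ne']
  have h2 : g x₀ ≤ g (‖x‖⁻¹ • x) := hmin h1
  rw [hg.smul _ (by positivity)] at h2
  calc ‖x‖ * g x₀ ≤ ‖x‖ * (‖x‖⁻¹ * g x) := by gcongr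
    _ = g x := by field_simp
    _ ≤ 1 := hx1

lemma IsGauge.continuousAt_D1 (hg : IsGauge g) {ζ : V} (hζ : ζ ≠ 0) :
    ContinuousAt (fderiv ℝ g) ζ :=
  (hg.contDiffAt_D1_nat hζ 0).continuousAt

lemma IsGauge.continuousAt_D2 (hg : IsGauge g) {ζ : V} (hζ : ζ ≠ 0) :
    ContinuousAt (fun ζ => D2 g ζ) ζ :=
  (hg.contDiffAt_D2_nat hζ 0).continuousAt

lemma IsGauge.continuousAt_Yf (hg : IsGauge g) {ζ z : V} (hζ : ζ ≠ 0) :
    ContinuousAt (fun x : V × V => Yf g x.1 x.2) (ζ, z) := by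
  have h1 : ContinuousAt (fun x : V × V => fderiv ℝ g x.1) (ζ, z) :=
    ContinuousAt.comp (f := fun x : V × V => x.1) (g := fderiv ℝ g) (x := (ζ, z))
      (hg.continuousAt_D1 hζ) continuousAt_fst
  unfold Yf
  exact continuousAt_const.sub (h1.clm_apply continuousAt_snd)

lemma IsGauge.continuousAt_Ph (hg : IsGauge g) {ζ z : V} (hζ : ζ ≠ 0) :
    ContinuousAt (fun x : V × V => Ph g x.1 x.2) (ζ, z) := by
  have h1 : ContinuousAt (fun x : V × V => fderiv ℝ g x.1) (ζ, z) :=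
    ContinuousAt.comp (f := fun x : V × V => x.1) (g := fderiv ℝ g) (x := (ζ, z))
      (hg.continuousAt_D1 hζ) continuousAt_fst
  have h2 : ContinuousAt (fun x : V × V => x.1 - x.2) (ζ, z) :=
    continuousAt_fst.sub continuousAt_snd
  unfold Ph L
  refine ContinuousAt.sub ?_ (continuousAt_const.mul ?_)
  · exact Complex.continuous_ofReal.continuousAt.comp (h1.clm_apply h2)
  · exact Complex.continuous_ofReal.continuousAt.comp (h1.clm_apply (h2.const_smul Complex.I))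

lemma IsGauge.D2_bdd_near (hg : IsGauge g) {ζ₀ : V} (hζ₀ : ζ₀ ≠ 0) :
    ∃ M : ℝ, ∀ᶠ ζ in 𝓝 ζ₀, ‖D2 g ζ‖ ≤ M := by
  obtain ⟨K, t, ht, hK⟩ := (hg.contDiffAt_D2_nat hζ₀ 1).exists_lipschitzOnWith
  refine ⟨‖D2 g ζ₀‖ + K, ?_⟩
  filter_upwards [ht, ball_mem_nhds ζ₀ one_pos] with ζ h1 h2
  have h3 := hK.norm_sub_le h1 (mem_of_mem_nhds ht)
  have h4 : ‖D2 g ζ‖ ≤ ‖D2 g ζ₀‖ + ‖D2 g ζ - D2 g ζ₀‖ :=
    norm_le_norm_add_norm_sub' (D2 g ζ) (D2 g ζ₀)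
  have h5 : ‖ζ - ζ₀‖ ≤ 1 := by
    rw [← dist_eq_norm]; exact (mem_ball.1 h2).le
  have h6 : (K : ℝ) * ‖ζ - ζ₀‖ ≤ K * 1 := by gcongr
  linarith

/-- The pointwise bound away from the critical pairs. -/
lemma maj_le_of {c M : ℝ} (hc : 0 < c) {ζ z : V} (h : c ≤ max ‖Ph g ζ z‖ (Yf g ζ z))
    (hM : ‖D2 g ζ‖ ≤ M) :
    maj g ζ z ≤ ‖ζ - z‖ₑ ^ (-(2 : ℝ)) * (ENNReal.ofReal c)⁻¹ +
      (2 * ENNReal.ofReal (2 * M)) * (ENNReal.ofReal (c / 2)) ^ (-(2 : ℝ)) +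
      ‖ζ - z‖ₑ ^ (-(1 : ℝ)) * ENNReal.ofReal (c ^ (-2 : ℤ)) := by
  unfold maj
  refine add_le_add (add_le_add ?_ ?_) ?_
  · unfold maj1
    gcongr
    rcases le_max_iff.1 h with h | h
    · exact (le_trans (by rw [← ofReal_norm]; exact ENNReal.ofReal_le_ofReal h) (le_max_left _ _))
    · exact (ENNReal.ofReal_le_ofReal h).trans (le_max_right _ _)
  · unfold maj2
    split_ifs with h1
    · have h2 : c / 2 ≤ ‖Ph g ζ z‖ := by
        rcases le_max_iff.1 h with h | h <;> linarith [norm_nonneg (Ph g ζ z)]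
      have h3 : ‖Ph g ζ z‖ₑ ^ (-(2 : ℝ)) ≤ (ENNReal.ofReal (c / 2)) ^ (-(2 : ℝ)) := by
        rw [ENNReal.rpow_neg, ENNReal.rpow_neg]
        refine ENNReal.inv_le_inv.2 (ENNReal.rpow_le_rpow ?_ (by norm_num))
        rw [← ofReal_norm]
        exact ENNReal.ofReal_le_ofReal h2
      have h4 : ∀ k, ‖hk g k ζ (ζ - z)‖ₑ ≤ ENNReal.ofReal (2 * M) * ‖ζ - z‖ₑ := by
        intro k
        have hM0 : 0 ≤ M := le_trans (norm_nonneg (D2 g ζ)) hM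
        rw [← ofReal_norm, ← ofReal_norm, ← ENNReal.ofReal_mul (by positivity)]
        refine ENNReal.ofReal_le_ofReal ((norm_hk_le g k ζ (ζ - z)).trans ?_)
        gcongr
      have h5 : ‖ζ - z‖ₑ ^ (-(1 : ℝ)) * ‖ζ - z‖ₑ ≤ 1 := by
        rw [ENNReal.rpow_neg, ENNReal.rpow_one]
        exact ENNReal.inv_mul_le_one _
      calc ‖ζ - z‖ₑ ^ (-(1 : ℝ)) * ((‖hk g 0 ζ (ζ - z)‖ₑ + ‖hk g 1 ζ (ζ - z)‖ₑ) *
            ‖Ph g ζ z‖ₑ ^ (-(2 : ℝ)))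
          ≤ ‖ζ - z‖ₑ ^ (-(1 : ℝ)) * ((ENNReal.ofReal (2 * M) * ‖ζ - z‖ₑ +
            ENNReal.ofReal (2 * M) * ‖ζ - z‖ₑ) * (ENNReal.ofReal (c / 2)) ^ (-(2 : ℝ))) := by
              gcongr
              · exact h4 0
              · exact h4 1
        _ = (2 * ENNReal.ofReal (2 * M)) * (ENNReal.ofReal (c / 2)) ^ (-(2 : ℝ)) *
            (‖ζ - z‖ₑ ^ (-(1 : ℝ)) * ‖ζ - z‖ₑ) := by ring
        _ ≤ (2 * ENNReal.ofReal (2 * M)) * (ENNReal.ofReal (c / 2)) ^ (-(2 : ℝ)) * 1 := by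
              gcongr
        _ = _ := mul_one _
    · exact zero_le
  · unfold maj3
    split_ifs with h1
    · have h2 : c ≤ Yf g ζ z := by
        rcases le_max_iff.1 h with h | h
        · linarith [norm_nonneg (Ph g ζ z)]
        · exact h
      gcongr
      rw [zpow_neg, zpow_neg]
      apply inv_anti₀ (by positivity)
      exact zpow_le_zpow_left₀ (by norm_num) hc.le h2
    · exact zero_le

/-- The local estimate away from the critical pairs. -/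
lemma IsGauge.local_noncrit (hg : IsGauge g) {ζ₀ z₀ : V} (hζ₀ : ζ₀ ≠ 0)
    (h : 0 < max ‖Ph g ζ₀ z₀‖ (Yf g ζ₀ z₀)) :
    ∃ r > 0, ∃ C : ℝ≥0∞, C ≠ ⊤ ∧ ∀ z ∈ ball z₀ r, ∫⁻ ζ in ball ζ₀ r, maj g ζ z ≤ C := by
  set m := max ‖Ph g ζ₀ z₀‖ (Yf g ζ₀ z₀) with hm
  obtain ⟨M, hbd⟩ := hg.D2_bdd_near hζ₀
  have hc1 : ContinuousAt (fun x : V × V => max ‖Ph g x.1 x.2‖ (Yf g x.1 x.2)) (ζ₀, z₀) :=
    (hg.continuousAt_Ph hζ₀).norm.max (hg.continuousAt_Yf hζ₀)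
  have e1 : ∀ᶠ x : V × V in 𝓝 (ζ₀, z₀), m / 2 < max ‖Ph g x.1 x.2‖ (Yf g x.1 x.2) :=
    hc1.eventually (lt_mem_nhds (show m / 2 < m by linarith))
  have e2 : ∀ᶠ x : V × V in 𝓝 (ζ₀, z₀), ‖D2 g x.1‖ ≤ M := by
    filter_upwards [continuousAt_fst.eventually hbd] with x hx using hx
  obtain ⟨r, hr, hb⟩ := Metric.eventually_nhds_iff.1 (e1.and e2)
  set A : ℝ≥0∞ := (2 * ENNReal.ofReal (2 * M)) * (ENNReal.ofReal (m / 2 / 2)) ^ (-(2 : ℝ)) with hA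
  set B1 : ℝ≥0∞ := (ENNReal.ofReal (m / 2))⁻¹ with hB1
  set B3 : ℝ≥0∞ := ENNReal.ofReal ((m / 2) ^ (-2 : ℤ)) with hB3
  have hAt : A ≠ ⊤ := by
    refine ENNReal.mul_ne_top (ENNReal.mul_ne_top (by norm_num) ENNReal.ofReal_ne_top) ?_
    refine ENNReal.rpow_ne_top_of_ne_zero ?_ ENNReal.ofReal_ne_top
    simp only [ne_eq, ENNReal.ofReal_eq_zero, not_le]
    positivity
  have hB1t : B1 ≠ ⊤ := by
    simp only [hB1, ne_eq, ENNReal.inv_eq_top, ENNReal.ofReal_eq_zero, not_le]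
    positivity
  have hB3t : B3 ≠ ⊤ := ENNReal.ofReal_ne_top
  have hvol : volume (ball ζ₀ r) ≠ ⊤ := measure_ball_lt_top.ne
  have hcst : ∀ a : ℝ, a < 4 → cst (volume : Measure V) a ≠ ⊤ := by
    intro a ha
    apply cst_ne_top
    · rw [finrank_V4]; exact_mod_cast ha
    · rw [finrank_V4]; norm_num
  have hmeas : ∀ (z : V) (a : ℝ), Measurable fun ζ : V => ‖ζ - z‖ₑ ^ a := by
    intro z a
    fun_prop
  refine ⟨r, hr, (cst (volume : Measure V) 2 + volume (ball ζ₀ r)) * B1 + A * volume (ball ζ₀ r) +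
    (cst (volume : Measure V) 1 + volume (ball ζ₀ r)) * B3, ?_, ?_⟩
  · refine ENNReal.add_ne_top.2 ⟨ENNReal.add_ne_top.2 ⟨?_, ?_⟩, ?_⟩
    · exact ENNReal.mul_ne_top (ENNReal.add_ne_top.2 ⟨hcst _ (by norm_num), hvol⟩) hB1t
    · exact ENNReal.mul_ne_top hAt hvol
    · exact ENNReal.mul_ne_top (ENNReal.add_ne_top.2 ⟨hcst _ (by norm_num), hvol⟩) hB3t
  · intro z hz
    calc ∫⁻ ζ in ball ζ₀ r, maj g ζ z
        ≤ ∫⁻ ζ in ball ζ₀ r, (‖ζ - z‖ₑ ^ (-(2 : ℝ)) * B1 + A + ‖ζ - z‖ₑ ^ (-(1 : ℝ)) * B3) := by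
          refine setLIntegral_mono' measurableSet_ball fun ζ hζ => ?_
          have h1 : dist ((ζ, z) : V × V) (ζ₀, z₀) < r := by
            rw [Prod.dist_eq, max_lt_iff]
            exact ⟨hζ, hz⟩
          obtain ⟨h2, h3⟩ := hb h1
          exact maj_le_of (by positivity) h2.le h3
      _ = (∫⁻ ζ in ball ζ₀ r, ‖ζ - z‖ₑ ^ (-(2 : ℝ))) * B1 + A * volume (ball ζ₀ r) +
          (∫⁻ ζ in ball ζ₀ r, ‖ζ - z‖ₑ ^ (-(1 : ℝ))) * B3 := by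
          rw [lintegral_add_right _ ((hmeas z _).mul_const _), lintegral_add_right _ measurable_const,
            lintegral_mul_const _ (hmeas z _), lintegral_mul_const _ (hmeas z _),
            setLIntegral_const]
      _ ≤ _ := by
          gcongr
          · exact lintegral_sub_rpow_le volume (by norm_num) _ _
          · exact lintegral_sub_rpow_le volume (by norm_num) _ _

/-- G6. -/
theorem maj_compact (hg : IsGauge g)
    (hcrit : ∀ ζ₀ z₀ : V, g ζ₀ = 1 → g z₀ ≤ 1 → Yf g ζ₀ z₀ = 0 → Ph g ζ₀ z₀ = 0 →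
      ∃ r > 0, ∃ C : ℝ≥0∞, C ≠ ⊤ ∧ ∀ z ∈ ball z₀ r, g z < 1 → ∫⁻ ζ in ball ζ₀ r, maj g ζ z ≤ C) :
    ∃ C : ℝ≥0∞, C ≠ ⊤ ∧ ∀ z, g z < 1 → ∫⁻ ζ in {ζ | 1 / 4 ≤ g ζ ∧ g ζ < 1}, maj g ζ z ≤ C := by
  have hK1 : IsCompact {ζ | 1 / 4 ≤ g ζ ∧ g ζ ≤ 1} := by
    have : {ζ | 1 / 4 ≤ g ζ ∧ g ζ ≤ 1} = {ζ | g ζ ≤ 1} ∩ {ζ | 1 / 4 ≤ g ζ} := by
      ext ζ; exact and_comm
    rw [this]
    exact hg.compact_le_one.inter_right (isClosed_le continuous_const hg.cont)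
  have hK := hK1.prod hg.compact_le_one
  have key : ∃ C : ℝ≥0∞, C ≠ ⊤ ∧ ∀ z, g z < 1 →
      ∫⁻ ζ in {ζ | (ζ, z) ∈ {ζ | 1 / 4 ≤ g ζ ∧ g ζ ≤ 1} ×ˢ {x | g x ≤ 1}}, maj g ζ z ≤ C := by
    refine hK.induction_on (p := fun S : Set (V × V) => ∃ C : ℝ≥0∞, C ≠ ⊤ ∧ ∀ z, g z < 1 →
      ∫⁻ ζ in {ζ | (ζ, z) ∈ S}, maj g ζ z ≤ C) ?_ ?_ ?_ ?_
    · exact ⟨0, ENNReal.zero_ne_top, fun z _ => by simp⟩
    · rintro S T hST ⟨C, hC, h⟩
      refine ⟨C, hC, fun z hz => le_trans (lintegral_mono_set ?_) (h z hz)⟩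
      exact fun ζ hζ => hST hζ
    · rintro S T ⟨C, hC, h⟩ ⟨C', hC', h'⟩
      refine ⟨C + C', ENNReal.add_ne_top.2 ⟨hC, hC'⟩, fun z hz => ?_⟩
      have : {ζ | (ζ, z) ∈ S ∪ T} = {ζ | (ζ, z) ∈ S} ∪ {ζ | (ζ, z) ∈ T} := rfl
      rw [this]
      exact (lintegral_union_le _ _ _).trans (add_le_add (h z hz) (h' z hz))
    · rintro ⟨ζ₀, z₀⟩ ⟨hζ, hz⟩
      obtain ⟨hζ1, hζ2⟩ : 1 / 4 ≤ g ζ₀ ∧ g ζ₀ ≤ 1 := hζ
      have hz' : g z₀ ≤ 1 := hz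
      have hζ0 : ζ₀ ≠ 0 := by
        rintro rfl
        rw [hg.zero] at hζ1
        norm_num at hζ1
      obtain ⟨r, hr, C, hC, hb⟩ : ∃ r > 0, ∃ C : ℝ≥0∞, C ≠ ⊤ ∧ ∀ z ∈ ball z₀ r, g z < 1 →
          ∫⁻ ζ in ball ζ₀ r, maj g ζ z ≤ C := by
        by_cases hcr : 0 < max ‖Ph g ζ₀ z₀‖ (Yf g ζ₀ z₀)
        · obtain ⟨r, hr, C, hC, hb⟩ := hg.local_noncrit hζ0 hcr
          exact ⟨r, hr, C, hC, fun z hz _ => hb z hz⟩
        · rw [not_lt, max_le_iff] at hcr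
          have hP : Ph g ζ₀ z₀ = 0 := norm_le_zero_iff.1 hcr.1
          have hY : Yf g ζ₀ z₀ = 0 := by
            refine le_antisymm hcr.2 ?_
            have := hg.D1_le hζ0 z₀
            unfold Yf
            linarith
          exact hcrit ζ₀ z₀ (hg.crit_g hζ0 hY hP) hz' hY hP
      refine ⟨ball ζ₀ r ×ˢ ball z₀ r, mem_nhdsWithin_of_mem_nhds
        (prod_mem_nhds (ball_mem_nhds _ hr) (ball_mem_nhds _ hr)), C, hC, fun z hz1 => ?_⟩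
      by_cases hzb : z ∈ ball z₀ r
      · refine (lintegral_mono_set fun ζ hζ => ?_).trans (hb z hzb hz1)
        exact hζ.1
      · have : {ζ | (ζ, z) ∈ ball ζ₀ r ×ˢ ball z₀ r} = ∅ := by
          ext ζ
          simp only [mem_ofPred_eq, mem_empty_iff_false, iff_false]
          exact fun h => hzb h.2
        rw [this]
        simp
  obtain ⟨C, hC, h⟩ := key
  refine ⟨C, hC, fun z hz => (lintegral_mono_set fun ζ hζ => ?_).trans (h z hz)⟩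
  exact ⟨⟨hζ.1, hζ.2.le⟩, hz.le⟩

end Db
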